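import Pool.Agent.helper67.TSC.Spec

set_option autoImplicit false

/-!
Row tsc:DIG of the project ts (MP_ebc808_nt): binary digits. Proof with integers only: for `A ≥ 4` the number `n` of the odd
`w` with `3 w ^ 2 < A` satisfies `1 ≤ n` and `3 (2 n - 1) ^ 2 < A ≤ 3 (2 n + 1) ^ 2`; comparing `A` and `4 A` gives
`2 n - 1 ≤ n' ≤ 2 n + 1`, so `n' = 2 n` if `n'` is even.
-/

open Finset

noncomputable section

namespace Pool.Agent.TSC

open Pool.Agent.EP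

theorem DIG_card (A : ℕ) (hA : 4 ≤ A) : 1 ≤ #(ws A) ∧
    3 * (2 * (#(ws A) : ℤ) - 1) ^ 2 < (A : ℤ) ∧ (A : ℤ) ≤ 3 * (2 * (#(ws A) : ℤ) + 1) ^ 2 := by
  classical
  have hex : ∃ n : ℕ, A ≤ 3 * (2 * n + 1) ^ 2 := ⟨A, by nlinarith⟩
  obtain ⟨n, hn1, hn2⟩ : ∃ n : ℕ, A ≤ 3 * (2 * n + 1) ^ 2 ∧ ∀ j < n, 3 * (2 * j + 1) ^ 2 < A := by
    refine ⟨Nat.find hex, Nat.find_spec hex, fun j hj => ?_⟩
    have := Nat.find_min hex hj
    omega
  have hset : ws A = (range n).image (fun j => 2 * j + 1) := by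
    ext w
    simp only [ws, mem_filter, mem_range, mem_image]
    constructor
    · rintro ⟨_, hodd, hlt⟩
      refine ⟨w / 2, ?_, by omega⟩
      by_contra hc
      have h1 : 2 * n + 1 ≤ w := by omega
      have h2 : (2 * n + 1) ^ 2 ≤ w ^ 2 := Nat.pow_le_pow_left h1 2
      omega
    · rintro ⟨j, hj, rfl⟩
      have h1 := hn2 j hj
      refine ⟨?_, by omega, h1⟩
      nlinarith
  have hcard : #(ws A) = n := by
    rw [hset, card_image_of_injective, card_range]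
    intro i j hij
    simp only at hij
    omega
  rw [hcard]
  have hn0 : 1 ≤ n := by
    by_contra hc
    have : n = 0 := by omega
    subst this
    omega
  refine ⟨hn0, ?_, by exact_mod_cast hn1⟩
  have h1 := hn2 (n - 1) (by omega)
  have h2 : 2 * (n - 1) + 1 = 2 * n - 1 := by omega
  rw [h2] at h1
  have h3 : ((2 * n - 1 : ℕ) : ℤ) = 2 * (n : ℤ) - 1 := by omega
  rw [← h3]
  exact_mod_cast h1

/-- **DIG** -/
theorem DIG : DIG_stmt := by
  intro N h hN _ hev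
  have hA : ∀ i : ℕ, 4 ≤ N * 4 ^ i := by
    intro i
    have : 1 ≤ 4 ^ i := Nat.one_le_pow _ _ (by norm_num)
    nlinarith
  have hstep : ∀ i : ℕ, i ≤ h → #(ws (N * 4 ^ i)) = 2 ^ i * #(ws N) := by
    intro i
    induction i with
    | zero => intro _; simp
    | succ i ih =>
      intro hi
      have e1 := ih (by omega)
      obtain ⟨a1, a2, a3⟩ := DIG_card (N * 4 ^ i) (hA i)
      obtain ⟨b1, b2, b3⟩ := DIG_card (N * 4 ^ (i + 1)) (hA (i + 1))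
      have e2 := hev (i + 1) hi
      have e3 : ((N * 4 ^ (i + 1) : ℕ) : ℤ) = 4 * ((N * 4 ^ i : ℕ) : ℤ) := by
        push_cast
        ring
      rw [e3] at b2 b3
      set n := #(ws (N * 4 ^ i)) with hn
      set n' := #(ws (N * 4 ^ (i + 1))) with hn'
      set A := ((N * 4 ^ i : ℕ) : ℤ) with hAdef
      have c1 : (2 * (n' : ℤ) - 1) ^ 2 < (4 * (n : ℤ) + 2) ^ 2 := by nlinarith
      have c2 : (4 * (n : ℤ) - 2) ^ 2 < (2 * (n' : ℤ) + 1) ^ 2 := by nlinarith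
      have c3 : 2 * (n' : ℤ) - 1 < 4 * (n : ℤ) + 2 := lt_of_pow_lt_pow_left₀ 2 (by positivity) c1
      have c4 : 4 * (n : ℤ) - 2 < 2 * (n' : ℤ) + 1 := lt_of_pow_lt_pow_left₀ 2 (by positivity) c2
      have c5 : n' = 2 * n := by omega
      rw [c5, e1]
      ring
  have h0 := hev 0 (Nat.zero_le h)
  rw [pow_zero, mul_one] at h0
  obtain ⟨t, ht⟩ : ∃ t : ℕ, #(ws N) = 2 * t := ⟨#(ws N) / 2, by omega⟩
  obtain ⟨a1, a2, a3⟩ := DIG_card N (by omega)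
  obtain ⟨b1, b2, b3⟩ := DIG_card (N * 4 ^ h) (hA h)
  rw [hstep h le_rfl] at b2 b3
  rw [ht] at a1 a2 a3 b2 b3
  push_cast at a2 a3 b2 b3
  refine ⟨t, ?_⟩
  set s := Nat.sqrt N with hs
  have hs1 : N < (s + 1) * (s + 1) := Nat.lt_succ_sqrt N
  have hs3 : 3 ≤ s := by
    rw [hs, Nat.le_sqrt]
    omega
  have hs1' : (N : ℤ) < ((s : ℤ) + 1) * ((s : ℤ) + 1) := by exact_mod_cast hs1
  -- the size of t
  have key : 24 * (t : ℤ) + 3 ≤ 8 * (s : ℤ) := by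
    by_contra hc
    have h1 : (s : ℤ) ≤ 3 * t := by omega
    have h2 : 1 ≤ (t : ℤ) := by omega
    have h3 : ((s : ℤ) + 1) * ((s : ℤ) + 1) ≤ (3 * (t : ℤ) + 1) * (3 * (t : ℤ) + 1) :=
      mul_self_le_mul_self (by positivity) (by linarith)
    nlinarith
  have hp : (0 : ℤ) < 2 ^ h := by positivity
  have hp1 : (1 : ℤ) ≤ 2 ^ h := by omega
  have h4 : (4 : ℤ) ^ h = 2 ^ h * 2 ^ h := by
    rw [← mul_pow]
    norm_num
  rw [h4] at b2 b3
  set q : ℤ := 2 ^ h with hq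
  -- q * |N - 48 t^2| ≤ 24 t + 3
  have h5 : q * (q * ((N : ℤ) - 48 * (t : ℤ) ^ 2)) ≤ q * (24 * (t : ℤ) + 3) := by
    have h6 : (N : ℤ) * (q * q) ≤ 3 * (2 * (q * (2 * (t : ℤ))) + 1) ^ 2 := b3
    nlinarith
  have h7 : q * (-(24 * (t : ℤ) + 3)) ≤ q * (q * ((N : ℤ) - 48 * (t : ℤ) ^ 2)) := by
    have h6 : 3 * (2 * (q * (2 * (t : ℤ))) - 1) ^ 2 < (N : ℤ) * (q * q) := b2
    nlinarith
  have h8 := le_of_mul_le_mul_left h5 hp
  have h9 := le_of_mul_le_mul_left h7 hp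
  have h10 : q * |(N : ℤ) - 48 * (t : ℤ) ^ 2| = |q * ((N : ℤ) - 48 * (t : ℤ) ^ 2)| := by
    rw [abs_mul, abs_of_pos hp]
  rw [h10, abs_le]
  constructor
  · linarith
  · linarith

end Pool.Agent.TSC
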