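import Pool.Agent.helper67.TSC.Spec

set_option autoImplicit false

/-!
Row tsc:EVB3 of the project ts (MP_ebc808_nt): a left value or a right value exists.
-/

open Finset

noncomputable section

namespace Pool.Agent.TSC

open Pool.Agent.EP

theorem EVB3_pp (s e : ℕ) (he : e < 2) (h : Fintype.card (Nat.Partition s) % 2 ≠ e) :
    pp s = ((1 - e : ℕ) : ZMod 2) := by
  unfold pp
  rw [ZMod.natCast_eq_natCast_iff']
  omega

/-- **EVB3** -/
theorem EVB3 (hIDK : IDK_stmt) (hLHK : LHK3_stmt) (hRHK : RHK3_stmt) : EVB3_stmt := by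
  intro e f a y k n he hf ha hk hk5 hSp hX hB hodd
  by_contra hcon
  rw [not_or] at hcon
  obtain ⟨hcL, hcR⟩ := hcon
  have hcop : Nat.Coprime k 6 := by
    have h1 : k % 6 = 1 := by omega
    have h2 : Nat.gcd k 6 = 1 := by
      rw [Nat.gcd_comm, Nat.gcd_rec, h1]
      norm_num
    exact h2
  have hid := hIDK a k (by omega) hcop ((24 * n + 3 - 2 ^ a : ℕ) : ℤ)
  obtain ⟨hL1, hL2⟩ := hLHK a y k n ha hk hk5 hSp hX
  rw [hL1] at hid
  have hl : ∑ r ∈ rs (2 ^ a) n, pp ((k * (24 * ((n - tri r) / 2 ^ a) - 1) + 1) / 24) =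
      (((1 - f) * #(rs (2 ^ a) n) : ℕ) : ZMod 2) := by
    have h1 : ∀ r ∈ rs (2 ^ a) n, pp ((k * (24 * ((n - tri r) / 2 ^ a) - 1) + 1) / 24) =
        ((1 - f : ℕ) : ZMod 2) := by
      intro r hr
      apply EVB3_pp _ _ hf
      intro hev
      apply hcL
      obtain ⟨h3, h4⟩ := hL2 r hr
      exact ⟨r, hr, h3, h4, hev⟩
    rw [Finset.sum_congr rfl h1, Finset.sum_const, nsmul_eq_mul]
    push_cast
    ring
  have hr : ∑ w ∈ ws (k * 2 ^ a), JG ac (k * 2 ^ a - 3 * w ^ 2) ((24 * n + 3 - 2 ^ a : ℕ) : ℤ) =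
      (((1 - e) * #(ws (k * 2 ^ a)) : ℕ) : ZMod 2) := by
    have h1 : ∀ w ∈ ws (k * 2 ^ a),
        JG ac (k * 2 ^ a - 3 * w ^ 2) ((24 * n + 3 - 2 ^ a : ℕ) : ℤ) =
        ((1 - e : ℕ) : ZMod 2) := by
      intro w hw
      obtain ⟨h3, h4⟩ := hRHK a y k n w ha hk hk5 hSp hB hw
      rw [h3]
      apply EVB3_pp _ _ he
      intro hev
      apply hcR
      exact ⟨w, hw, h4, hev⟩
    rw [Finset.sum_congr rfl h1, Finset.sum_const, nsmul_eq_mul]
    push_cast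
    ring
  rw [hl, hr, ZMod.natCast_eq_natCast_iff'] at hid
  omega

end Pool.Agent.TSC
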